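import Pool.Agent.helper23.CU.Spec

open Finset Filter Topology

namespace CU

variable {d n : ℕ} [NeZero n]

/-- edges at `x` -/
def BX3_E (x : Site d n) : Finset (Edge d n) :=
  (univ.image fun i : Fin d => ((x, i) : Edge d n)) ∪ univ.image fun i : Fin d => ((x - ev i, i) : Edge d n)

theorem BX3_E_card (x : Site d n) : (BX3_E x).card ≤ 2 * d := by
  have h1 := Finset.card_union_le (univ.image fun i : Fin d => ((x, i) : Edge d n))
    (univ.image fun i : Fin d => ((x - ev i, i) : Edge d n))
  have h2 : (univ.image fun i : Fin d => ((x, i) : Edge d n)).card ≤ d := by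
    have := Finset.card_image_le (s := (univ : Finset (Fin d))) (f := fun i : Fin d => ((x, i) : Edge d n))
    simpa using this
  have h3 : (univ.image fun i : Fin d => ((x - ev i, i) : Edge d n)).card ≤ d := by
    have := Finset.card_image_le (s := (univ : Finset (Fin d))) (f := fun i : Fin d => ((x - ev i, i) : Edge d n))
    simpa using this
  unfold BX3_E
  omega

theorem BX3_brk (x : Site d n) (σ : Conf d n) :
    (brk (Function.update σ x true)).card ≤ (brk (Function.update σ x false)).card + 2 * d := by
  have h : brk (Function.update σ x true) ⊆ brk (Function.update σ x false) ∪ BX3_E x := by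
    intro e he
    rw [mem_union]
    by_cases h1 : e.1 = x
    · right
      unfold BX3_E
      rw [mem_union, mem_image]
      left
      exact ⟨e.2, mem_univ _, by rw [← h1]⟩
    · by_cases h2 : e.1 + ev e.2 = x
      · right
        unfold BX3_E
        rw [mem_union, mem_image, mem_image]
        right
        exact ⟨e.2, mem_univ _, by rw [← h2, add_sub_cancel_right]⟩
      · left
        simp only [brk, mem_filter, mem_univ, true_and] at he ⊢
        rw [Function.update_of_ne h1, Function.update_of_ne h2] at he ⊢
        exact he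
  calc (brk (Function.update σ x true)).card ≤ (brk (Function.update σ x false) ∪ BX3_E x).card :=
        Finset.card_le_card h
    _ ≤ (brk (Function.update σ x false)).card + (BX3_E x).card := Finset.card_union_le _ _
    _ ≤ _ := Nat.add_le_add_left (BX3_E_card x) _

theorem BX3_W_pos (β : ℝ) (σ : Conf d n) : 0 < W β σ := Real.exp_pos _

theorem BX3_W (β : ℝ) (hβ : 0 ≤ β) (x : Site d n) (σ : Conf d n) :
    W β (Function.update σ x false) ≤ Real.exp (4 * d * β) * W β (Function.update σ x true) := by
  unfold W
  rw [← Real.exp_add, Real.exp_le_exp]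
  have h : ((brk (Function.update σ x true)).card : ℝ) ≤ (brk (Function.update σ x false)).card + 2 * d := by
    exact_mod_cast BX3_brk x σ
  nlinarith

theorem BX3_Kx (β : ℝ) (hβ : 0 ≤ β) (x : Site d n) (g : Conf d n → ℝ) (hg : ∀ σ, 0 ≤ g σ) (σ : Conf d n) :
    (1 / (1 + Real.exp (4 * d * β))) * g (Function.update σ x true) ≤ Kx β x g σ := by
  have h1 := BX3_W_pos β (Function.update σ x true)
  have h2 := BX3_W_pos β (Function.update σ x false)
  have h3 := BX3_W β hβ x σ
  have h4 := hg (Function.update σ x true)
  have h5 := hg (Function.update σ x false)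
  have h6 := Real.exp_pos (4 * d * β)
  unfold Kx
  rw [div_mul_eq_mul_div, one_mul, div_le_div_iff₀ (by linarith) (by linarith)]
  have h7 : 0 ≤ W β (Function.update σ x false) * g (Function.update σ x false) := mul_nonneg h2.le h5
  have h8 : W β (Function.update σ x false) * g (Function.update σ x true) ≤
      Real.exp (4 * d * β) * W β (Function.update σ x true) * g (Function.update σ x true) :=
    mul_le_mul_of_nonneg_right h3 h4
  nlinarith [mul_nonneg h7 h6.le]

theorem BX3_Kx_nonneg (β : ℝ) (x : Site d n) (g : Conf d n → ℝ) (hg : ∀ σ, 0 ≤ g σ) (σ : Conf d n) :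
    0 ≤ Kx β x g σ := by
  have h1 := BX3_W_pos β (Function.update σ x true)
  have h2 := BX3_W_pos β (Function.update σ x false)
  unfold Kx
  exact div_nonneg (add_nonneg (mul_nonneg h1.le (hg _)) (mul_nonneg h2.le (hg _))) (by linarith)

theorem BX3_PD_nonneg (β : ℝ) (D : Finset (Site d n)) (g : Conf d n → ℝ) (hg : ∀ σ, 0 ≤ g σ) (k : ℕ) :
    ∀ σ, 0 ≤ (PD β D)^[k] g σ := by
  induction k with
  | zero => exact hg
  | succ k ih =>
    intro σ
    rw [Function.iterate_succ_apply']
    unfold PD Pf
    exact div_nonneg (Finset.sum_nonneg fun x _ => BX3_Kx_nonneg β x _ ih _) (Nat.cast_nonneg _)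

theorem BX3_step (β : ℝ) (hβ : 0 ≤ β) (D : Finset (Site d n)) (g : Conf d n → ℝ) (hg : ∀ σ, 0 ≤ g σ)
    (x : Site d n) (σ : Conf d n) :
    ((1 / (Fintype.card (Site d n) : ℝ)) * (1 / (1 + Real.exp (4 * d * β)))) * g (Function.update (ext D σ) x true) ≤
      PD β D g σ := by
  unfold PD Pf
  have hN : (0 : ℝ) < (Fintype.card (Site d n) : ℝ) := by
    exact_mod_cast Fintype.card_pos
  have h1 : Kx β x g (ext D σ) ≤ ∑ y : Site d n, Kx β y g (ext D σ) :=
    Finset.single_le_sum (f := fun y => Kx β y g (ext D σ)) (fun y _ => BX3_Kx_nonneg β y g hg _) (mem_univ x)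
  have h2 := BX3_Kx β hβ x g hg (ext D σ)
  rw [le_div_iff₀ hN]
  calc ((1 / (Fintype.card (Site d n) : ℝ)) * (1 / (1 + Real.exp (4 * d * β)))) *
        g (Function.update (ext D σ) x true) * (Fintype.card (Site d n) : ℝ) =
        (1 / (1 + Real.exp (4 * d * β))) * g (Function.update (ext D σ) x true) := by
        field_simp
    _ ≤ _ := h2.trans h1

theorem BX3 : BX3_stmt := by
  intro d n _ β hβ D f hf hfD
  have key : ∀ T : Finset (Site d n), T ⊆ D → ∀ σ : Conf d n,
      ((1 / (Fintype.card (Site d n) : ℝ)) * (1 / (1 + Real.exp (4 * d * β)))) ^ T.card *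
        f (fun y => if y ∈ D ∧ y ∉ T then σ y else true) ≤ (PD β D)^[T.card] f σ := by
    intro T
    induction T using Finset.induction_on with
    | empty =>
      intro _ σ
      simp only [Finset.card_empty, pow_zero, one_mul, Function.iterate_zero, id_eq, notMem_empty, not_false_eq_true,
        and_true]
      exact (hfD σ).le
    | insert x T hx ih =>
      intro hT σ
      have hxD : x ∈ D := hT (mem_insert_self x T)
      have hTD : T ⊆ D := fun y hy => hT (mem_insert_of_mem hy)
      rw [Finset.card_insert_of_notMem hx, Function.iterate_succ_apply']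
      have h1 := BX3_step β hβ D ((PD β D)^[T.card] f) (BX3_PD_nonneg β D f hf T.card) x σ
      have h2 := ih hTD (Function.update (ext D σ) x true)
      have h3 : (fun y => if y ∈ D ∧ y ∉ T then Function.update (ext D σ) x true y else true) =
          (fun y => if y ∈ D ∧ y ∉ insert x T then σ y else true) := by
        funext y
        by_cases hy : y = x
        · subst hy
          rw [if_pos ⟨hxD, hx⟩, Function.update_self, if_neg (fun h => h.2 (mem_insert_self _ _))]
        · by_cases hyD : y ∈ D
          · by_cases hyT : y ∈ T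
            · rw [if_neg (fun h => h.2 hyT), if_neg (fun h => h.2 (mem_insert_of_mem hyT))]
            · rw [if_pos ⟨hyD, hyT⟩, if_pos ⟨hyD, fun h => by
                rcases mem_insert.mp h with h | h
                · exact hy h
                · exact hyT h⟩, Function.update_of_ne hy]
              unfold ext
              rw [if_pos hyD]
          · rw [if_neg (fun h => hyD h.1), if_neg (fun h => hyD h.1)]
      rw [h3] at h2
      have hq : 0 ≤ (1 / (Fintype.card (Site d n) : ℝ)) * (1 / (1 + Real.exp (4 * d * β))) := by
        have := Real.exp_pos (4 * d * β)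
        positivity
      rw [pow_succ', mul_assoc]
      exact (mul_le_mul_of_nonneg_left h2 hq).trans h1
  intro σ
  have h := key D (Finset.Subset.refl D) σ
  have h2 : (fun y => if y ∈ D ∧ y ∉ D then σ y else true) = (plus : Conf d n) := by
    funext y
    rw [if_neg (fun h => h.2 h.1)]
    rfl
  rw [h2] at h
  exact h

end CU
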