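import Pool.Agent.helper23.CU.SpecE

open Finset Filter Topology

namespace CU

/-- the two line parities -/
def RD_c {n : ℕ} [NeZero n] (η : Finset (Edge 2 n)) : Fin 2 → ZMod 2 := fun i =>
  ∑ j : ZMod n, if ((Pi.single i j : Site 2 n), i) ∈ η then (1 : ZMod 2) else 0

theorem RD_c_symm {n : ℕ} [NeZero n] (η ζ : Finset (Edge 2 n)) : RD_c (symmDiff η ζ) = RD_c η + RD_c ζ := by
  funext i
  rw [Pi.add_apply]
  unfold RD_c
  rw [← Finset.sum_add_distrib]
  refine Finset.sum_congr rfl fun j _ => ?_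
  by_cases h1 : ((Pi.single i j : Site 2 n), i) ∈ η
  · by_cases h2 : ((Pi.single i j : Site 2 n), i) ∈ ζ
    · rw [if_neg (by rw [Finset.mem_symmDiff]; tauto), if_pos h1, if_pos h2]
      decide
    · rw [if_pos (by rw [Finset.mem_symmDiff]; tauto), if_pos h1, if_neg h2, add_zero]
  · by_cases h2 : ((Pi.single i j : Site 2 n), i) ∈ ζ
    · rw [if_pos (by rw [Finset.mem_symmDiff]; tauto), if_neg h1, if_pos h2, zero_add]
    · rw [if_neg (by rw [Finset.mem_symmDiff]; tauto), if_neg h1, if_neg h2, zero_add]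

theorem RD_flip {n : ℕ} [NeZero n] (σ : Conf 2 n) : brk (flipc σ) = brk σ := by
  unfold brk
  apply Finset.filter_congr
  intro e _
  show (!σ e.1) ≠ (!σ (e.1 + ev e.2)) ↔ _
  rw [Ne, Ne, Bool.not_inj_iff]

theorem RD_flip_ne {n : ℕ} [NeZero n] (σ : Conf 2 n) : σ ≠ flipc σ := by
  intro h
  have := congrFun h 0
  unfold flipc at this
  cases h2 : σ 0 <;> simp [h2] at this

theorem RD_two {n : ℕ} [NeZero n] (g : Finset (Edge 2 n) → ℝ) (hg : ∀ b, 0 ≤ g b) :
    2 * ∑ b ∈ (univ : Finset (Conf 2 n)).image brk, g b ≤ ∑ σ : Conf 2 n, g (brk σ) := by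
  rw [← Finset.sum_fiberwise_of_maps_to (s := (univ : Finset (Conf 2 n)))
    (t := (univ : Finset (Conf 2 n)).image brk) (g := brk) (fun σ _ => mem_image_of_mem _ (mem_univ σ)), Finset.mul_sum]
  refine Finset.sum_le_sum fun b hb => ?_
  obtain ⟨σ, -, rfl⟩ := mem_image.mp hb
  have hsub : ({σ, flipc σ} : Finset (Conf 2 n)) ⊆ univ.filter fun τ => brk τ = brk σ := by
    intro τ hτ
    rw [mem_insert, mem_singleton] at hτ
    rw [mem_filter]
    rcases hτ with rfl | rfl
    · exact ⟨mem_univ _, rfl⟩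
    · exact ⟨mem_univ _, RD_flip σ⟩
  calc 2 * g (brk σ) = ∑ τ ∈ ({σ, flipc σ} : Finset (Conf 2 n)), g (brk τ) := by
        rw [Finset.sum_pair (RD_flip_ne σ), RD_flip]
        ring
    _ ≤ _ := Finset.sum_le_sum_of_subset_of_nonneg hsub fun τ _ _ => hg _

theorem RD (hQA : QA_stmt) (hRA : RA_stmt) (hRC : RC_stmt) : RD_stmt := by
  intro n _ hn β hβ
  obtain ⟨hbd, -⟩ := hQA n hn
  have hx : 0 < Real.exp (-2 * β) := Real.exp_pos _
  have hZG : ∀ ζ : Finset (Edge 2 n), ZG β (univ : Finset (Site 2 n)) ζ =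
      ∑ σ : Conf 2 n, Real.exp (-2 * β) ^ (symmDiff (brk σ) ζ).card := by
    intro ζ
    unfold ZG
    have : PlusOn (univ : Finset (Site 2 n)) = (univ : Finset (Conf 2 n)) := by
      ext σ
      simp [PlusOn]
    rw [this]
    refine Finset.sum_congr rfl fun σ _ => ?_
    rw [← Real.exp_nat_mul]
    congr 1
    ring
  have hA : ∀ ζ : Finset (Edge 2 n), ∑ σ : Conf 2 n, Real.exp (-2 * β) ^ (symmDiff (brk σ) ζ).card ≤
      ∑ σ : Conf 2 n, Real.exp (-2 * β) ^ (brk σ).card := by
    intro ζ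
    have h := hRA 2 n β hβ.le univ ζ
    rw [hZG, hZG] at h
    refine h.trans (le_of_eq (Finset.sum_congr rfl fun σ _ => ?_))
    have : symmDiff (brk σ) ∅ = brk σ := symmDiff_bot (brk σ)
    rw [this]
  -- class sums
  have hcl : ∀ κ : Fin 2 → ZMod 2, ∀ E : Finset (Finset (Edge 2 n)), (∀ η ∈ E, bd η = 0 ∧ RD_c η = κ) →
      ∑ η ∈ E, Real.exp (-2 * β) ^ η.card ≤ (1 / 2) * ∑ σ : Conf 2 n, Real.exp (-2 * β) ^ (brk σ).card := by
    intro κ E hE
    rcases E.eq_empty_or_nonempty with rfl | ⟨ζ, hζ⟩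
    · rw [Finset.sum_empty]
      exact mul_nonneg (by norm_num) (Finset.sum_nonneg fun σ _ => (pow_pos hx _).le)
    · have hζ' := hE ζ hζ
      have hmap : ∀ η ∈ E, symmDiff η ζ ∈ (univ : Finset (Conf 2 n)).image brk := by
        intro η hη
        have hη' := hE η hη
        obtain ⟨σ, hσ⟩ := hRC n hn (symmDiff η ζ) (by
          rw [hbd, hη'.1, hζ'.1, add_zero]) (by
          intro i
          have h := congrFun (RD_c_symm η ζ) i
          rw [hη'.2, hζ'.2] at h
          have h2 : (κ + κ) i = 0 := by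
            rw [Pi.add_apply]
            exact CharTwo.add_self_eq_zero _
          rw [h2] at h
          exact h)
        exact mem_image.mpr ⟨σ, mem_univ _, hσ⟩
      have h1 : ∑ η ∈ E, Real.exp (-2 * β) ^ η.card ≤
          ∑ b ∈ (univ : Finset (Conf 2 n)).image brk, Real.exp (-2 * β) ^ (symmDiff b ζ).card := by
        have h2 : ∑ η ∈ E, Real.exp (-2 * β) ^ η.card =
            ∑ b ∈ E.image (fun η => symmDiff η ζ), Real.exp (-2 * β) ^ (symmDiff b ζ).card := by
          rw [Finset.sum_image]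
          · refine Finset.sum_congr rfl fun η _ => ?_
            rw [symmDiff_symmDiff_cancel_right]
          · intro a _ b _ hab
            exact symmDiff_left_injective ζ hab
        rw [h2]
        refine Finset.sum_le_sum_of_subset_of_nonneg ?_ fun _ _ _ => (pow_pos hx _).le
        intro b hb
        obtain ⟨η, hη, rfl⟩ := mem_image.mp hb
        exact hmap η hη
      have h3 := RD_two (fun b : Finset (Edge 2 n) => Real.exp (-2 * β) ^ (symmDiff b ζ).card)
        (fun b => (pow_pos hx _).le)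
      have h4 := hA ζ
      linarith
  -- sum over the classes
  unfold Zs
  rw [← Finset.sum_fiberwise (g := RD_c)]
  calc _ ≤ ∑ _κ : Fin 2 → ZMod 2, (1 / 2) * ∑ σ : Conf 2 n, Real.exp (-2 * β) ^ (brk σ).card := by
        refine Finset.sum_le_sum fun κ _ => ?_
        refine hcl κ _ fun η hη => ?_
        have h1 := Finset.mem_filter.mp hη
        have h2 := (@Finset.mem_filter _ _ (fun a => Classical.propDecidable _) _ _).mp h1.1
        exact ⟨h2.2, h1.2⟩
    _ = _ := by
        rw [Finset.sum_const, Finset.card_univ]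
        have : Fintype.card (Fin 2 → ZMod 2) = 4 := by
          rw [Fintype.card_fun, ZMod.card, Fintype.card_fin]
          norm_num
        rw [this, nsmul_eq_mul]
        push_cast
        ring

end CU
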